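import Pool.Agent.Results.MP_0be93d_co.Characterization
import Pool.Agent.Helper9CH.CloneMA
import Pool.Agent.Helper292.ForceCH

/-!
# The two questions on the 2-sphere are independent of ZFC

The continuum hypothesis can be forced, and it implies that `P(W, Γ)` holds for every uncountable
`W ⊆ S²` with trivial pointwise stabilizer in `Γ`, for `Γ = O(3)` and for `Γ = SO(3)`. Martin's
axiom for `ℵ₁` dense sets can be forced too, and it implies that `P(W, Γ)` fails for some
uncountable `W ⊆ S²` with trivial pointwise stabilizer.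

The forcing language is the one of `Pool.Agent.Helper669.Forcing` (for the continuum hypothesis the
one of `Pool.Agent.Helper292.ForceCH`, which is the same): a sentence is the set of the conditions
which force it. `MartinHolds P Om1` is the translation into this language of `MartinFor Om1`.
-/

set_option autoImplicit false

open Cardinal

namespace Pool.Agent.Results.MP_0be93d_co.Independent

open Pool.Agent.Results.MP_0be93d_co.Characterization
open Pool.Agent.Helper669.Forcing Pool.Agent.W684.FM

/-- (1) Some forcing notion forces, below every condition, that `ω₁` is preserved and that the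
continuum hypothesis holds. (2) Let `Γ` be `O(3)` or `SO(3)`. The continuum hypothesis implies that
the property `P(W, Γ)` holds for every uncountable `W ⊆ S²` whose pointwise stabilizer in `Γ` is
trivial. (3) Some forcing notion forces, below every condition, that `ω₁` is preserved and that
Martin's axiom for `ℵ₁` dense sets holds. (4) Let `Γ` be `O(3)` or `SO(3)`. Martin's axiom for `ℵ₁`
dense sets implies that `P(W, Γ)` fails for some uncountable `W ⊆ S²` whose pointwise stabilizer in
`Γ` is trivial. -/
theorem result :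
    (∃ (P : Type) (_ : Preorder P), Nonempty P ∧ ∀ p : P,
      p ∈ Pool.Agent.Helper292.ForceCH.OmegaOnePreserved P ∧
      p ∈ Pool.Agent.Helper292.ForceCH.CHHolds P) ∧
    ((𝔠 : Cardinal.{0}) = ℵ₁ →
      ∀ Γ : Set (Matrix (Fin 3) (Fin 3) ℝ), Γ = O3 ∨ Γ = SO3 →
        ∀ W : Set S2, ¬ W.Countable → TrivialStabilizer Γ W → PrecolExt Γ W) ∧
    (∃ (P : Type) (_ : Preorder P), Nonempty P ∧ ∀ p : P,
      p ∈ OmegaOnePreserved P ∧ p ∈ MartinHolds P Om1) ∧
    (MartinFor Om1 →
      ∀ Γ : Set (Matrix (Fin 3) (Fin 3) ℝ), Γ = O3 ∨ Γ = SO3 →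
        ∃ W : Set S2, ¬ W.Countable ∧ TrivialStabilizer Γ W ∧ ¬ PrecolExt Γ W) := by
  refine ⟨?_, fun hCH Γ hΓ W hW hs => ?_, ?_, fun hM Γ hΓ => ?_⟩
  · obtain ⟨P, i, h1, h2⟩ := Pool.Agent.Helper292.ForceCH.exists_forcing
    exact ⟨P, i, h1, fun p => ⟨(h2 p).1, (h2 p).2.2⟩⟩
  · by_contra hcon
    have h := (Characterization.result Γ hΓ).2.1 ⟨W, hW, hs, hcon⟩
    rw [two_power_aleph0, hCH] at h
    exact absurd h (Cardinal.cantor _).ne'
  · obtain ⟨P, i, h1, h2⟩ := Pool.Agent.W684.FM.exists_forcing Om1
    exact ⟨P, i, h1, fun p => ⟨(h2 p).2.1, (h2 p).2.2⟩⟩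
  · refine (Characterization.result Γ hΓ).2.2 (le_antisymm ?_ ?_)
    · have hκ : ℵ₀ ≤ (ℵ₁ : Cardinal.{0}) := Cardinal.aleph0_le_aleph 1
      have h := Pool.Agent.Helper9CH.two_power_le hκ
        (martinAxiomAleph1_iff.1 (martinFor_om1_iff.1 hM)) (X := Om1)
        (by rw [Cardinal.mk_ord_toType])
      rwa [Cardinal.mk_ord_toType, ← two_power_aleph0] at h
    · exact power_le_power_left two_ne_zero (Cardinal.aleph0_le_aleph 1)

end Pool.Agent.Results.MP_0be93d_co.Independent
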